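import Pool.Agent.Lib.MP_ba0fa5_ag.Iface
import Pool.Agent.Lib.MP_02fec8_nt.Mert

/-!
# Module NMERTP (helper92): Mertens' theorem for the set `QQ p`

For a nonprincipal Dirichlet character `χ`, `∑_{n ≤ N} χ(n) Λ(n) / n = O(1)` follows from
`L(1, χ) ≠ 0` (Mathlib); `QQ p` is detected by two quadratic characters and their product.
-/

set_option autoImplicit false

namespace Pool.Agent.Lib.MP_ba0fa5_ag.H92

open Finset Filter Topology
open scoped ArithmeticFunction.vonMangoldt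

/-! ### Partial summation -/

theorem abel_bound {a : ℕ → ℂ} {K : ℝ} (hK : ∀ N, ‖∑ n ∈ range N, a n‖ ≤ K) {f : ℕ → ℝ} {m : ℕ}
    (hf : ∀ n, m ≤ n → f (n + 1) ≤ f n) (hf0 : ∀ n, 0 ≤ f n) {N : ℕ} (hN : m ≤ N) :
    ‖∑ n ∈ Ico m N, a n * (f n : ℂ)‖ ≤ 2 * K * f m := by
  set B : ℕ → ℂ := fun N => ∑ n ∈ range N, a n with hB
  have hK0 : 0 ≤ K := (norm_nonneg _).trans (hK 0)
  have h1 : ∀ N, m ≤ N → ∑ n ∈ Ico m N, a n * (f n : ℂ) =
      B N * f N - B m * f m + ∑ n ∈ Ico m N, B (n + 1) * ((f n - f (n + 1) : ℝ) : ℂ) := by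
    intro N hN
    induction N, hN using Nat.le_induction with
    | base => simp
    | succ k hk ih =>
      rw [sum_Ico_succ_top hk, sum_Ico_succ_top hk, ih]
      have h2 : B (k + 1) = B k + a k := sum_range_succ _ _
      rw [h2]
      push_cast
      ring
  have h2 : ∀ N, m ≤ N → ∑ n ∈ Ico m N, (f n - f (n + 1)) = f m - f N := by
    intro N hN
    induction N, hN using Nat.le_induction with
    | base => simp
    | succ k hk ih =>
      rw [sum_Ico_succ_top hk, ih]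
      ring
  have h3 : ‖∑ n ∈ Ico m N, B (n + 1) * ((f n - f (n + 1) : ℝ) : ℂ)‖ ≤ K * (f m - f N) := by
    rw [← h2 N hN, mul_sum]
    refine (norm_sum_le _ _).trans (sum_le_sum fun n hn => ?_)
    have h4 : 0 ≤ f n - f (n + 1) := by
      have := hf n (mem_Ico.1 hn).1
      linarith
    rw [norm_mul, Complex.norm_real, Real.norm_of_nonneg h4]
    exact mul_le_mul_of_nonneg_right (hK _) h4
  rw [h1 N hN]
  have h4 : ‖B N * (f N : ℂ)‖ ≤ K * f N := by
    rw [norm_mul, Complex.norm_real, Real.norm_of_nonneg (hf0 N)]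
    exact mul_le_mul_of_nonneg_right (hK _) (hf0 N)
  have h5 : ‖B m * (f m : ℂ)‖ ≤ K * f m := by
    rw [norm_mul, Complex.norm_real, Real.norm_of_nonneg (hf0 m)]
    exact mul_le_mul_of_nonneg_right (hK _) (hf0 m)
  calc ‖B N * f N - B m * f m + ∑ n ∈ Ico m N, B (n + 1) * ((f n - f (n + 1) : ℝ) : ℂ)‖
      ≤ ‖B N * (f N : ℂ) - B m * f m‖ + ‖∑ n ∈ Ico m N, B (n + 1) * ((f n - f (n + 1) : ℝ) : ℂ)‖ :=
        norm_add_le _ _
    _ ≤ (‖B N * (f N : ℂ)‖ + ‖B m * (f m : ℂ)‖) +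
        ‖∑ n ∈ Ico m N, B (n + 1) * ((f n - f (n + 1) : ℝ) : ℂ)‖ := by
        gcongr
        exact norm_sub_le _ _
    _ ≤ (K * f N + K * f m) + K * (f m - f N) := by gcongr
    _ = 2 * K * f m := by ring

section Char

variable {q : ℕ} [NeZero q] (χ : DirichletCharacter ℂ q)

theorem sum_range_zmod (F : ZMod q → ℂ) : ∑ x ∈ range q, F (x : ZMod q) = ∑ a : ZMod q, F a := by
  refine sum_nbij' (fun x => (x : ZMod q)) (fun a => a.val) ?_ ?_ ?_ ?_ ?_
  · intro x _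
    exact mem_univ _
  · intro a _
    rw [mem_range]
    exact ZMod.val_lt a
  · intro x hx
    rw [mem_range] at hx
    exact ZMod.val_cast_of_lt hx
  · intro a _
    exact ZMod.natCast_zmod_val a
  · intro x _
    rfl

theorem sum_range_char (hχ : χ ≠ 1) (N : ℕ) : ‖∑ n ∈ range N, χ (n : ZMod q)‖ ≤ q := by
  have h0 : ∀ c : ZMod q, ∑ x ∈ range q, χ (c + (x : ZMod q)) = 0 := by
    intro c
    rw [sum_range_zmod (fun a => χ (c + a))]
    rw [← MulChar.sum_eq_zero_of_ne_one hχ]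
    exact Fintype.sum_equiv (Equiv.addLeft c) _ _ fun _ => rfl
  have h1 : ∀ k : ℕ, ∑ n ∈ range (q * k), χ (n : ZMod q) = 0 := by
    intro k
    induction k with
    | zero => simp
    | succ k ih =>
      rw [Nat.mul_succ, sum_range_add, ih, zero_add]
      have := h0 ((q * k : ℕ) : ZMod q)
      rw [← this]
      refine sum_congr rfl fun x _ => ?_
      push_cast
      rfl
  have h2 : N = q * (N / q) + N % q := (Nat.div_add_mod N q).symm
  rw [h2, sum_range_add, h1, zero_add]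
  refine (norm_sum_le _ _).trans ?_
  calc ∑ n ∈ range (N % q), ‖χ (((q * (N / q) + n : ℕ)) : ZMod q)‖
      ≤ ∑ _n ∈ range (N % q), (1 : ℝ) := sum_le_sum fun n _ => χ.norm_le_one _
    _ = (N % q : ℕ) := by simp
    _ ≤ q := by exact_mod_cast (Nat.mod_lt N (Nat.pos_of_ne_zero (NeZero.ne q))).le

/-- the partial sums of `L(1, χ)` -/
theorem partial_one (hχ : χ ≠ 1) {N : ℕ} (hN : 1 ≤ N) :
    ‖DirichletCharacter.LFunction χ 1 - ∑ n ∈ range N, χ (n : ZMod q) * ((1 / n : ℝ) : ℂ)‖ ≤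
      2 * q / N := by
  have hN0 : (0 : ℝ) < N := by exact_mod_cast hN
  -- for real `s > 1`
  have h1 : ∀ s : ℝ, 1 < s → ‖DirichletCharacter.LFunction χ (s : ℂ) -
      ∑ n ∈ range N, χ (n : ZMod q) * (((n : ℝ) ^ (-s) : ℝ) : ℂ)‖ ≤ 2 * q / N := by
    intro s hs
    have h2 : ∀ n : ℕ, LSeries.term (χ ·) (s : ℂ) n =
        χ (n : ZMod q) * (((n : ℝ) ^ (-s) : ℝ) : ℂ) := by
      intro n
      rcases Nat.eq_zero_or_pos n with h0 | h0
      · subst h0
        rw [LSeries.term_zero, Nat.cast_zero (R := ℝ), Real.zero_rpow (by linarith)]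
        simp
      · rw [LSeries.term_of_ne_zero h0.ne', Complex.ofReal_cpow (by positivity), div_eq_mul_inv]
        push_cast
        rw [Complex.cpow_neg]
    have hs' : 1 < (s : ℂ).re := by simpa using hs
    have h3 : Tendsto (fun M => ∑ n ∈ range M, LSeries.term (χ ·) (s : ℂ) n) atTop
        (𝓝 (DirichletCharacter.LFunction χ (s : ℂ))) := by
      rw [DirichletCharacter.LFunction_eq_LSeries χ hs']
      exact (DirichletCharacter.LSeriesSummable_of_one_lt_re χ hs').hasSum.tendsto_sum_nat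
    have h4 : Tendsto (fun M => ‖(∑ n ∈ range M, LSeries.term (χ ·) (s : ℂ) n) -
        ∑ n ∈ range N, LSeries.term (χ ·) (s : ℂ) n‖) atTop
        (𝓝 ‖DirichletCharacter.LFunction χ (s : ℂ) -
          ∑ n ∈ range N, LSeries.term (χ ·) (s : ℂ) n‖) := (h3.sub_const _).norm
    simp only [h2] at h4
    refine le_of_tendsto h4 ?_
    filter_upwards [eventually_ge_atTop N] with M hM
    rw [← sum_Ico_eq_sub _ hM]
    have h5 := abel_bound (a := fun n : ℕ => χ (n : ZMod q)) (K := q)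
      (fun N => sum_range_char χ hχ N) (f := fun n : ℕ => (n : ℝ) ^ (-s)) (m := N) (by
        intro n hn
        have hn0 : (0 : ℝ) < n := by
          have : 1 ≤ n := hN.trans hn
          exact_mod_cast this
        exact Real.rpow_le_rpow_of_nonpos hn0 (by push_cast; linarith) (by linarith))
      (fun n => by positivity) hM
    refine h5.trans ?_
    rw [div_eq_mul_inv]
    gcongr
    calc (N : ℝ) ^ (-s) ≤ (N : ℝ) ^ (-1 : ℝ) :=
          Real.rpow_le_rpow_of_exponent_le (by exact_mod_cast hN) (by linarith)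
      _ = (N : ℝ)⁻¹ := Real.rpow_neg_one _
  -- the limit
  have h2 : Tendsto (fun s : ℝ => ‖DirichletCharacter.LFunction χ (s : ℂ) -
      ∑ n ∈ range N, χ (n : ZMod q) * (((n : ℝ) ^ (-s) : ℝ) : ℂ)‖) (𝓝[>] 1)
      (𝓝 ‖DirichletCharacter.LFunction χ 1 -
        ∑ n ∈ range N, χ (n : ZMod q) * ((1 / n : ℝ) : ℂ)‖) := by
    have h3 : Continuous fun s : ℝ => DirichletCharacter.LFunction χ (s : ℂ) :=
      (DirichletCharacter.differentiable_LFunction hχ).continuous.comp Complex.continuous_ofReal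
    have h4 : ∀ n : ℕ, Tendsto (fun s : ℝ => (n : ℝ) ^ (-s)) (𝓝 1) (𝓝 (1 / n : ℝ)) := by
      intro n
      have h5 : (1 / n : ℝ) = (n : ℝ) ^ (-1 : ℝ) := by rw [Real.rpow_neg_one, one_div]
      rw [h5]
      rcases Nat.eq_zero_or_pos n with h0 | h0
      · subst h0
        have h6 : (fun s : ℝ => ((0 : ℕ) : ℝ) ^ (-s)) =ᶠ[𝓝 1] fun _ => 0 := by
          filter_upwards [isOpen_ne.mem_nhds (one_ne_zero : (1 : ℝ) ≠ 0)] with s hs
          rw [Nat.cast_zero, Real.zero_rpow (neg_ne_zero.2 hs)]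
        rw [tendsto_congr' h6, Nat.cast_zero, Real.zero_rpow (by norm_num)]
        exact tendsto_const_nhds
      · have h7 : (0 : ℝ) < n := by exact_mod_cast h0
        exact ((Real.continuous_const_rpow h7.ne').comp continuous_neg).tendsto 1
    have h5 : Tendsto (fun s : ℝ => ∑ n ∈ range N, χ (n : ZMod q) * (((n : ℝ) ^ (-s) : ℝ) : ℂ))
        (𝓝 1) (𝓝 (∑ n ∈ range N, χ (n : ZMod q) * ((1 / n : ℝ) : ℂ))) :=
      tendsto_finsetSum _ fun n _ =>
        ((Complex.continuous_ofReal.tendsto _).comp (h4 n)).const_mul _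
    have h6 := (h3.tendsto 1).sub h5
    rw [Complex.ofReal_one] at h6
    exact (h6.norm).mono_left nhdsWithin_le_nhds
  refine le_of_tendsto h2 ?_
  filter_upwards [self_mem_nhdsWithin] with s hs
  exact h1 s hs

/-- `∑ χ(n) log n / n` is bounded -/
theorem sum_log (hχ : χ ≠ 1) : ∃ C : ℝ, ∀ N : ℕ,
    ‖∑ n ∈ range N, χ (n : ZMod q) * ((Real.log n / n : ℝ) : ℂ)‖ ≤ C := by
  have hlog3 : 0 ≤ Real.log 3 := Real.log_nonneg (by norm_num)
  refine ⟨∑ n ∈ range 3, ‖χ (n : ZMod q) * ((Real.log n / n : ℝ) : ℂ)‖ +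
    2 * q * (Real.log 3 / 3), fun N => ?_⟩
  have h0 : ∀ n : ℕ, 0 ≤ Real.log n / n := fun n =>
    div_nonneg (Real.log_natCast_nonneg n) (Nat.cast_nonneg n)
  rcases Nat.lt_or_ge N 3 with h | h
  · refine (norm_sum_le _ _).trans ?_
    have h1 : ∑ n ∈ range N, ‖χ (n : ZMod q) * ((Real.log n / n : ℝ) : ℂ)‖ ≤
        ∑ n ∈ range 3, ‖χ (n : ZMod q) * ((Real.log n / n : ℝ) : ℂ)‖ :=
      sum_le_sum_of_subset_of_nonneg (range_subset_range.2 h.le) fun _ _ _ => norm_nonneg _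
    have h2 : 0 ≤ 2 * (q : ℝ) * (Real.log 3 / 3) := by positivity
    linarith
  · rw [← sum_range_add_sum_Ico _ h]
    refine (norm_add_le _ _).trans (add_le_add (norm_sum_le _ _) ?_)
    have h5 := abel_bound (a := fun n : ℕ => χ (n : ZMod q)) (K := q)
      (fun N => sum_range_char χ hχ N) (f := fun n : ℕ => Real.log n / n) (m := 3) (by
        intro n hn
        have h3 : Real.exp 1 ≤ n := by
          have := Real.exp_one_lt_d9
          have h4 : (3 : ℝ) ≤ n := by exact_mod_cast hn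
          linarith
        exact Real.log_div_self_antitoneOn h3 (by
          show Real.exp 1 ≤ ((n + 1 : ℕ) : ℝ)
          push_cast
          linarith) (by push_cast; linarith)) h0 h
    refine h5.trans (le_of_eq ?_)
    push_cast
    ring

end Char

/-! ### The Dirichlet convolution -/

theorem sum_divisors_eq (F : ℕ → ℕ → ℂ) (N : ℕ) :
    ∑ n ∈ Icc 1 N, ∑ d ∈ n.divisors, F d (n / d) =
      ∑ d ∈ Icc 1 N, ∑ m ∈ Icc 1 (N / d), F d m := by
  rw [sum_sigma', sum_sigma']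
  refine sum_nbij' (fun x => (⟨x.2, x.1 / x.2⟩ : (_ : ℕ) × ℕ))
    (fun y => (⟨y.1 * y.2, y.1⟩ : (_ : ℕ) × ℕ)) ?_ ?_ ?_ ?_ ?_
  · rintro ⟨n, d⟩ h
    simp only [mem_sigma, mem_Icc, Nat.mem_divisors] at h ⊢
    obtain ⟨⟨h1, h2⟩, ⟨k, rfl⟩, h3⟩ := h
    have hd : 0 < d := Nat.pos_of_ne_zero (by rintro rfl; simp at h3)
    have hk : 0 < k := Nat.pos_of_ne_zero (by rintro rfl; simp at h3)
    rw [Nat.mul_div_cancel_left k hd]
    refine ⟨⟨hd, (Nat.le_mul_of_pos_right d hk).trans h2⟩, hk, ?_⟩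
    rw [Nat.le_div_iff_mul_le hd, mul_comm]
    exact h2
  · rintro ⟨d, m⟩ h
    simp only [mem_sigma, mem_Icc, Nat.mem_divisors] at h ⊢
    obtain ⟨⟨h1, h2⟩, h3, h4⟩ := h
    have hd : 0 < d := h1
    have hm : 0 < m := h3
    rw [Nat.le_div_iff_mul_le hd, mul_comm] at h4
    exact ⟨⟨Nat.mul_pos hd hm, h4⟩, ⟨dvd_mul_right _ _, (Nat.mul_pos hd hm).ne'⟩⟩
  · rintro ⟨n, d⟩ h
    simp only [mem_sigma, mem_Icc, Nat.mem_divisors] at h
    simp only [Nat.mul_div_cancel' h.2.1]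
  · rintro ⟨d, m⟩ h
    simp only [mem_sigma, mem_Icc] at h
    have hd : 0 < d := h.1.1
    simp only [Nat.mul_div_cancel_left m hd]
  · rintro ⟨n, d⟩ _
    rfl

theorem sum_mangoldt_le : ∃ C : ℝ, 0 ≤ C ∧ ∀ N : ℕ, ∑ d ∈ Icc 1 N, Λ d ≤ C * N := by
  refine ⟨Real.log 4 + 4, by have := Real.log_nonneg (by norm_num : (1:ℝ) ≤ 4); linarith, ?_⟩
  intro N
  have h1 := Chebyshev.psi_le_const_mul_self (x := (N : ℝ)) (Nat.cast_nonneg N)
  rw [Chebyshev.psi] at h1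
  have h2 : ∑ d ∈ Icc 1 N, Λ d = ∑ n ∈ Ioc 0 ⌊(N : ℝ)⌋₊, Λ n := by
    rw [Nat.floor_natCast]
    rfl
  rw [h2]
  exact h1

/-- `∑ χ(n) Λ(n) / n` is bounded -/
theorem sum_char_mangoldt {q : ℕ} [NeZero q] (χ : DirichletCharacter ℂ q) (hχ : χ ≠ 1) :
    ∃ C : ℝ, ∀ N : ℕ, ‖∑ n ∈ Icc 1 N, χ (n : ZMod q) * ((Λ n / n : ℝ) : ℂ)‖ ≤ C := by
  obtain ⟨C₁, hC₁⟩ := sum_log χ hχ
  obtain ⟨C₂, hC₂0, hC₂⟩ := sum_mangoldt_le
  set L := DirichletCharacter.LFunction χ 1 with hL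
  have hL0 : L ≠ 0 := DirichletCharacter.LFunction_apply_one_ne_zero hχ
  have hLn : 0 < ‖L‖ := norm_pos_iff.2 hL0
  refine ⟨(C₁ + 2 * q * C₂) / ‖L‖, fun N => ?_⟩
  rw [le_div_iff₀ hLn, ← norm_mul]
  rcases Nat.eq_zero_or_pos N with h0 | hN
  · subst h0
    simp only [Icc_eq_empty_of_lt zero_lt_one, sum_empty, zero_mul, norm_zero]
    have : 0 ≤ C₁ := (norm_nonneg _).trans (hC₁ 0)
    positivity
  have hN0 : (0 : ℝ) < N := by exact_mod_cast hN
  -- the identity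
  have h1 : ∑ n ∈ range (N + 1), χ (n : ZMod q) * ((Real.log n / n : ℝ) : ℂ) =
      ∑ d ∈ Icc 1 N, (χ (d : ZMod q) * ((Λ d / d : ℝ) : ℂ)) *
        ∑ m ∈ range (N / d + 1), χ (m : ZMod q) * ((1 / m : ℝ) : ℂ) := by
    have e1 : ∀ f : ℕ → ℂ, f 0 = 0 → ∀ M, ∑ n ∈ range (M + 1), f n = ∑ n ∈ Icc 1 M, f n := by
      intro f hf M
      rw [← Nat.Ico_zero_eq_range, sum_eq_sum_Ico_succ_bot (Nat.succ_pos M), hf, zero_add]
      rfl
    rw [e1 _ (by simp) N]
    have e2 : ∀ d ∈ Icc 1 N, (χ (d : ZMod q) * ((Λ d / d : ℝ) : ℂ)) *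
        ∑ m ∈ range (N / d + 1), χ (m : ZMod q) * ((1 / m : ℝ) : ℂ) =
        ∑ m ∈ Icc 1 (N / d), (χ (d : ZMod q) * ((Λ d / d : ℝ) : ℂ)) *
          (χ (m : ZMod q) * ((1 / m : ℝ) : ℂ)) := by
      intro d _
      rw [e1 _ (by simp), mul_sum]
    rw [sum_congr rfl e2, ← sum_divisors_eq (fun d m => (χ (d : ZMod q) * ((Λ d / d : ℝ) : ℂ)) *
          (χ (m : ZMod q) * ((1 / m : ℝ) : ℂ)))]
    refine sum_congr rfl fun n hn => ?_
    have hn1 : 1 ≤ n := (mem_Icc.1 hn).1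
    have e3 : Real.log n = ∑ d ∈ n.divisors, Λ d :=
      (ArithmeticFunction.vonMangoldt_sum).symm
    rw [e3, sum_div, Complex.ofReal_sum, mul_sum]
    refine sum_congr rfl fun d hd => ?_
    obtain ⟨⟨k, hk⟩, -⟩ := Nat.mem_divisors.1 hd
    have hd0 : 0 < d := Nat.pos_of_ne_zero (by rintro rfl; omega)
    have hk0 : 0 < k := Nat.pos_of_ne_zero (by rintro rfl; omega)
    have hdR : (d : ℂ) ≠ 0 := by exact_mod_cast hd0.ne'
    have hkR : (k : ℂ) ≠ 0 := by exact_mod_cast hk0.ne'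
    rw [hk, Nat.mul_div_cancel_left k hd0]
    push_cast
    rw [map_mul]
    field_simp
  have h2 : (∑ n ∈ Icc 1 N, χ (n : ZMod q) * ((Λ n / n : ℝ) : ℂ)) * L =
      ∑ n ∈ range (N + 1), χ (n : ZMod q) * ((Real.log n / n : ℝ) : ℂ) +
      ∑ d ∈ Icc 1 N, (χ (d : ZMod q) * ((Λ d / d : ℝ) : ℂ)) *
        (L - ∑ m ∈ range (N / d + 1), χ (m : ZMod q) * ((1 / m : ℝ) : ℂ)) := by
    rw [h1, ← sum_add_distrib, sum_mul]
    refine sum_congr rfl fun d _ => ?_
    ring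
  have h3 : ‖∑ d ∈ Icc 1 N, (χ (d : ZMod q) * ((Λ d / d : ℝ) : ℂ)) *
        (L - ∑ m ∈ range (N / d + 1), χ (m : ZMod q) * ((1 / m : ℝ) : ℂ))‖ ≤ 2 * q * C₂ := by
    have h4 : ∀ d ∈ Icc 1 N, ‖(χ (d : ZMod q) * ((Λ d / d : ℝ) : ℂ)) *
        (L - ∑ m ∈ range (N / d + 1), χ (m : ZMod q) * ((1 / m : ℝ) : ℂ))‖ ≤
          (2 * q / N) * Λ d := by
      intro d hd
      have hd1 : 1 ≤ d := (mem_Icc.1 hd).1
      have hd0 : (0 : ℝ) < d := by exact_mod_cast hd1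
      have h5 := partial_one χ hχ (N := N / d + 1) (Nat.le_add_left 1 _)
      have h6 : (N : ℝ) / d < ((N / d + 1 : ℕ) : ℝ) := by
        have := Nat.lt_floor_add_one ((N : ℝ) / d)
        rw [Nat.floor_div_eq_div] at this
        exact_mod_cast this
      have h7 : 2 * (q : ℝ) / ((N / d + 1 : ℕ) : ℝ) ≤ 2 * q * d / N := by
        have h8 : 2 * (q : ℝ) * d / N = 2 * q / (N / d) := by field_simp
        rw [h8]
        gcongr
      have hΛ : 0 ≤ Λ d := ArithmeticFunction.vonMangoldt_nonneg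
      have h8 : ‖χ (d : ZMod q) * ((Λ d / d : ℝ) : ℂ)‖ ≤ Λ d / d := by
        rw [norm_mul, Complex.norm_real, Real.norm_of_nonneg (div_nonneg hΛ hd0.le)]
        exact mul_le_of_le_one_left (div_nonneg hΛ hd0.le) (χ.norm_le_one _)
      rw [norm_mul]
      calc ‖χ (d : ZMod q) * ((Λ d / d : ℝ) : ℂ)‖ *
          ‖L - ∑ m ∈ range (N / d + 1), χ (m : ZMod q) * ((1 / m : ℝ) : ℂ)‖
          ≤ (Λ d / d) * (2 * q * d / N) :=
            mul_le_mul h8 (h5.trans h7) (norm_nonneg _) (div_nonneg hΛ hd0.le)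
        _ = (2 * q / N) * Λ d := by field_simp
    refine (norm_sum_le _ _).trans ((sum_le_sum h4).trans ?_)
    rw [← mul_sum]
    calc (2 * q / N) * ∑ d ∈ Icc 1 N, Λ d ≤ (2 * q / N) * (C₂ * N) := by
          gcongr
          exact hC₂ N
      _ = 2 * q * C₂ := by field_simp
  rw [h2]
  exact (norm_add_le _ _).trans (add_le_add (hC₁ _) h3)

/-! ### Prime powers -/

theorem sum_log_eq (N : ℕ) : ∑ n ∈ Icc 1 N, Real.log n = ∑ d ∈ Icc 1 N, Λ d * ((N / d : ℕ) : ℝ) := by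
  have h := sum_divisors_eq (fun d _ => ((Λ d : ℝ) : ℂ)) N
  have h1 : ∑ n ∈ Icc 1 N, ∑ d ∈ n.divisors, ((Λ d : ℝ) : ℂ) =
      ((∑ n ∈ Icc 1 N, Real.log n : ℝ) : ℂ) := by
    push_cast
    refine sum_congr rfl fun n _ => ?_
    rw [← Complex.ofReal_sum, ArithmeticFunction.vonMangoldt_sum]
    simp
  have h2 : ∑ d ∈ Icc 1 N, ∑ _m ∈ Icc 1 (N / d), ((Λ d : ℝ) : ℂ) =
      ((∑ d ∈ Icc 1 N, Λ d * ((N / d : ℕ) : ℝ) : ℝ) : ℂ) := by
    rw [Complex.ofReal_sum]
    refine sum_congr rfl fun d _ => ?_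
    rw [sum_const, Nat.card_Icc, nsmul_eq_mul, Nat.add_sub_cancel]
    push_cast
    ring
  rw [h1, h2] at h
  exact_mod_cast h

theorem sum_mangoldt_div : ∃ C : ℝ, 0 ≤ C ∧ ∀ N : ℕ, 1 ≤ N →
    ∑ d ∈ Icc 1 N, Λ d / d ≤ Real.log N + C := by
  obtain ⟨C₂, hC₂0, hC₂⟩ := sum_mangoldt_le
  refine ⟨C₂, hC₂0, fun N hN => ?_⟩
  have hN0 : (0 : ℝ) < N := by exact_mod_cast hN
  have h1 : (N : ℝ) * ∑ d ∈ Icc 1 N, Λ d / d ≤
      ∑ d ∈ Icc 1 N, Λ d * ((N / d : ℕ) : ℝ) + ∑ d ∈ Icc 1 N, Λ d := by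
    rw [mul_sum, ← sum_add_distrib]
    refine sum_le_sum fun d hd => ?_
    have hd0 : (0 : ℝ) < d := by exact_mod_cast (mem_Icc.1 hd).1
    have h6 : (N : ℝ) / d < ((N / d : ℕ) : ℝ) + 1 := by
      have := Nat.lt_floor_add_one ((N : ℝ) / d)
      rwa [Nat.floor_div_eq_div] at this
    have hΛ : 0 ≤ Λ d := ArithmeticFunction.vonMangoldt_nonneg
    calc (N : ℝ) * (Λ d / d) = Λ d * (N / d) := by ring
      _ ≤ Λ d * (((N / d : ℕ) : ℝ) + 1) := by gcongr
      _ = _ := by ring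
  rw [← sum_log_eq] at h1
  have h2 : ∑ n ∈ Icc 1 N, Real.log n ≤ N * Real.log N := by
    calc ∑ n ∈ Icc 1 N, Real.log n ≤ ∑ _n ∈ Icc 1 N, Real.log N := by
          refine sum_le_sum fun n hn => ?_
          have h3 := mem_Icc.1 hn
          exact Real.log_le_log (by exact_mod_cast h3.1) (by exact_mod_cast h3.2)
      _ = N * Real.log N := by simp
  have h3 := hC₂ N
  have h4 : (N : ℝ) * ∑ d ∈ Icc 1 N, Λ d / d ≤ N * (Real.log N + C₂) := by linarith
  exact le_of_mul_le_mul_left h4 hN0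

/-- the contribution of the prime powers -/
theorem sum_not_prime : ∃ C : ℝ, 0 ≤ C ∧ ∀ N : ℕ,
    ∑ d ∈ (Icc 1 N).filter (fun d => ¬ d.Prime), Λ d / d ≤ C := by
  obtain ⟨C₁, hC₁0, hC₁⟩ := sum_mangoldt_div
  obtain ⟨C₂, hC₂0, hC₂⟩ := Pool.Agent.Lib.MP_02fec8_nt.Mert.mertens1
  refine ⟨C₁ + C₂, by positivity, fun N => ?_⟩
  rcases Nat.eq_zero_or_pos N with h0 | hN
  · subst h0
    simp only [Icc_eq_empty_of_lt zero_lt_one, filter_empty, sum_empty]
    positivity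
  have h1 := hC₁ N hN
  have h2 := (abs_le.1 (hC₂ N hN)).1
  rw [← sum_filter_add_sum_filter_not (Icc 1 N) (fun d => d.Prime)] at h1
  have h3 : ∑ d ∈ (Icc 1 N).filter (fun d => d.Prime), Λ d / d =
      Pool.Agent.Lib.MP_02fec8_nt.Mert.M N := by
    rw [Pool.Agent.Lib.MP_02fec8_nt.Mert.M, Nat.primesLE_eq_filter_Icc_one]
    refine sum_congr rfl fun d hd => ?_
    rw [ArithmeticFunction.vonMangoldt_apply_prime (mem_filter.1 hd).2]
  rw [h3] at h1
  linarith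

/-- Mertens' theorem for a nonprincipal character -/
theorem sum_char_primes {q : ℕ} [NeZero q] (χ : DirichletCharacter ℂ q) (hχ : χ ≠ 1) :
    ∃ C : ℝ, ∀ N : ℕ, ‖∑ l ∈ (Icc 1 N).filter Nat.Prime,
      χ (l : ZMod q) * ((Real.log l / l : ℝ) : ℂ)‖ ≤ C := by
  obtain ⟨C₁, hC₁⟩ := sum_char_mangoldt χ hχ
  obtain ⟨C₂, hC₂0, hC₂⟩ := sum_not_prime
  refine ⟨C₁ + C₂, fun N => ?_⟩
  have h1 := sum_filter_add_sum_filter_not (Icc 1 N) (fun d => Nat.Prime d)
    (fun n => χ (n : ZMod q) * ((Λ n / n : ℝ) : ℂ))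
  have h2 : ∑ l ∈ (Icc 1 N).filter Nat.Prime, χ (l : ZMod q) * ((Real.log l / l : ℝ) : ℂ) =
      ∑ n ∈ Icc 1 N, χ (n : ZMod q) * ((Λ n / n : ℝ) : ℂ) -
        ∑ d ∈ (Icc 1 N).filter (fun d => ¬ Nat.Prime d),
          χ (d : ZMod q) * ((Λ d / d : ℝ) : ℂ) := by
    rw [← h1, add_sub_cancel_right]
    refine sum_congr rfl fun d hd => ?_
    rw [ArithmeticFunction.vonMangoldt_apply_prime (mem_filter.1 hd).2]
  rw [h2]
  refine (norm_sub_le _ _).trans (add_le_add (hC₁ N) ?_)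
  refine (norm_sum_le _ _).trans (le_trans (sum_le_sum fun d hd => ?_) (hC₂ N))
  have h3 : 0 ≤ Λ d / d := div_nonneg ArithmeticFunction.vonMangoldt_nonneg (Nat.cast_nonneg d)
  rw [norm_mul, Complex.norm_real, Real.norm_of_nonneg h3]
  exact mul_le_of_le_one_left h3 (χ.norm_le_one _)

/-! ### The characters -/

theorem lift_char {d N : ℕ} (hd : d ∣ N) (χ : MulChar (ZMod d) ℤ) :
    ∃ ψ : DirichletCharacter ℂ N, ∀ n : ℕ, n.Coprime N →
      ψ (n : ZMod N) = ((χ (n : ZMod d) : ℤ) : ℂ) := by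
  refine ⟨DirichletCharacter.changeLevel hd (χ.ringHomComp (Int.castRingHom ℂ)), fun n hn => ?_⟩
  have h1 := DirichletCharacter.changeLevel_eq_cast_of_dvd' (χ.ringHomComp (Int.castRingHom ℂ)) hd
    (a := (n : ℤ)) (Nat.isCoprime_iff_coprime.2 hn)
  rw [Int.cast_natCast, Int.cast_natCast] at h1
  rw [h1, MulChar.ringHomComp_apply]
  rfl

theorem char_ne_one {N : ℕ} (χ : DirichletCharacter ℂ N) {n : ℕ} (hn : n.Coprime N)
    (h : χ (n : ZMod N) ≠ 1) : χ ≠ 1 := by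
  rintro rfl
  exact h (MulChar.one_apply ((ZMod.isUnit_iff_coprime n N).2 hn))

open scoped Classical in
/-- a set of primes detected by two characters -/
theorem mert_of {N : ℕ} [NeZero N] (α β : DirichletCharacter ℂ N) (ε : ℝ) (hε : |ε| = 1)
    (hα : α ≠ 1) (hβ : β ≠ 1) (hαβ : α * β ≠ 1) (S : Set ℕ) (hS : ∀ l ∈ S, l.Prime ∧ l ≠ 2)
    (h : ∀ l : ℕ, l.Prime → l.Coprime N →
      (if l ∈ S then (4 : ℂ) else 0) = (1 - α (l : ZMod N)) * (1 - ε * β (l : ZMod N))) :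
    Mert S := by
  refine ⟨hS, ?_⟩
  obtain ⟨C₁, hC₁⟩ := sum_char_primes α hα
  obtain ⟨C₂, hC₂⟩ := sum_char_primes β hβ
  obtain ⟨C₃, hC₃⟩ := sum_char_primes (α * β) hαβ
  obtain ⟨C₀, hC₀0, hC₀⟩ := Pool.Agent.Lib.MP_02fec8_nt.Mert.mertens1
  set w : ℕ → ℝ := fun l => Real.log l / l with hw
  have hw0 : ∀ l, 0 ≤ w l := fun l => div_nonneg (Real.log_natCast_nonneg l) (Nat.cast_nonneg l)
  set CN : ℝ := ∑ l ∈ N.primeFactors, 4 * w l with hCN
  refine ⟨(C₀ + C₁ + C₂ + C₃ + CN) / 4, fun y hy => ?_⟩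
  set T := (Icc 1 y).filter Nat.Prime with hT
  set r : ℕ → ℂ := fun l => ((if l ∈ S then (4 : ℂ) else 0) -
    (1 - α (l : ZMod N)) * (1 - ε * β (l : ZMod N))) * (w l : ℂ) with hr
  have h1 : ∑ l ∈ T, (if l ∈ S then (4 : ℂ) else 0) * (w l : ℂ) =
      ∑ l ∈ T, (w l : ℂ) - ∑ l ∈ T, α (l : ZMod N) * (w l : ℂ) -
        ε * ∑ l ∈ T, β (l : ZMod N) * (w l : ℂ) +
        ε * ∑ l ∈ T, (α * β) (l : ZMod N) * (w l : ℂ) + ∑ l ∈ T, r l := by
    rw [mul_sum, mul_sum, ← sum_sub_distrib, ← sum_sub_distrib, ← sum_add_distrib,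
      ← sum_add_distrib]
    refine sum_congr rfl fun l _ => ?_
    rw [hr, MulChar.mul_apply]
    simp only
    ring
  have h2 : ∑ l ∈ T, (if l ∈ S then (4 : ℂ) else 0) * (w l : ℂ) =
      ((4 * ∑ l ∈ (Icc 1 y).filter (fun l => l ∈ S), w l : ℝ) : ℂ) := by
    have h3 : (Icc 1 y).filter (fun l => l ∈ S) = T.filter (fun l => l ∈ S) := by
      ext l
      simp only [hT, mem_filter]
      constructor
      · rintro ⟨a, b⟩
        exact ⟨⟨a, (hS l b).1⟩, b⟩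
      · rintro ⟨⟨a, _⟩, b⟩
        exact ⟨a, b⟩
    have h4 : ∑ l ∈ T.filter (fun l => l ∈ S), w l = ∑ l ∈ T, if l ∈ S then w l else 0 :=
      sum_filter _ _
    rw [h3, h4, mul_sum, Complex.ofReal_sum]
    refine sum_congr rfl fun l _ => ?_
    by_cases hl : l ∈ S
    · simp only [if_pos hl]
      push_cast
      ring
    · simp only [if_neg hl, zero_mul, Complex.ofReal_zero, mul_zero]
  have h3 : ‖∑ l ∈ T, r l‖ ≤ CN := by
    have h4 : ∀ l ∈ T, l ∉ N.primeFactors → r l = 0 := by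
      intro l hl hlN
      have hlp : l.Prime := (mem_filter.1 hl).2
      have hc : l.Coprime N := by
        rw [hlp.coprime_iff_not_dvd]
        intro hd
        exact hlN (Nat.mem_primeFactors.2 ⟨hlp, hd, NeZero.ne N⟩)
      rw [hr]
      simp only
      rw [h l hlp hc, sub_self, zero_mul]
    have h5 : ∑ l ∈ T, r l = ∑ l ∈ T.filter (fun l => l ∈ N.primeFactors), r l := by
      have h6 : ∑ l ∈ T.filter (fun l => l ∈ N.primeFactors), r l =
          ∑ l ∈ T, if l ∈ N.primeFactors then r l else 0 := sum_filter _ _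
      rw [h6]
      refine sum_congr rfl fun l hl => ?_
      by_cases hlN : l ∈ N.primeFactors
      · rw [if_pos hlN]
      · rw [if_neg hlN, h4 l hl hlN]
    rw [h5]
    refine (norm_sum_le _ _).trans ?_
    have h6 : ∀ l ∈ T.filter (fun l => l ∈ N.primeFactors), ‖r l‖ ≤ 4 * w l := by
      intro l hl
      have hl2 := (mem_filter.1 hl).2
      have hlp : l.Prime := Nat.prime_of_mem_primeFactors hl2
      have hdv : l ∣ N := Nat.dvd_of_mem_primeFactors hl2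
      have hnu : ¬ IsUnit (l : ZMod N) := by
        rw [ZMod.isUnit_iff_coprime, hlp.coprime_iff_not_dvd, not_not]
        exact hdv
      rw [hr]
      simp only
      rw [α.map_nonunit hnu, β.map_nonunit hnu, mul_zero, sub_zero, mul_one, norm_mul,
        Complex.norm_real, Real.norm_of_nonneg (hw0 l)]
      refine mul_le_mul_of_nonneg_right ?_ (hw0 l)
      by_cases hlS : l ∈ S
      · rw [if_pos hlS]
        norm_num
      · rw [if_neg hlS]
        norm_num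
    refine (sum_le_sum h6).trans ?_
    rw [hCN]
    refine sum_le_sum_of_subset_of_nonneg (fun l hl => (mem_filter.1 hl).2) fun l _ _ => ?_
    have := hw0 l
    positivity
  have h4 : |∑ l ∈ T, w l - Real.log y| ≤ C₀ := by
    have h5 := hC₀ y hy
    rw [Pool.Agent.Lib.MP_02fec8_nt.Mert.M, Nat.primesLE_eq_filter_Icc_one] at h5
    exact h5
  have hεn : ‖(ε : ℂ)‖ = 1 := by rw [Complex.norm_real]; exact hε
  have h5 : ((4 * ∑ l ∈ (Icc 1 y).filter (fun l => l ∈ S), w l - Real.log y : ℝ) : ℂ) =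
      ((∑ l ∈ T, w l - Real.log y : ℝ) : ℂ) - ∑ l ∈ T, α (l : ZMod N) * (w l : ℂ) -
        ε * ∑ l ∈ T, β (l : ZMod N) * (w l : ℂ) +
        ε * ∑ l ∈ T, (α * β) (l : ZMod N) * (w l : ℂ) + ∑ l ∈ T, r l := by
    rw [Complex.ofReal_sub, ← h2, h1, Complex.ofReal_sub, Complex.ofReal_sum]
    ring
  have h6 : |4 * ∑ l ∈ (Icc 1 y).filter (fun l => l ∈ S), w l - Real.log y| ≤
      C₀ + C₁ + C₂ + C₃ + CN := by
    rw [← Real.norm_eq_abs, ← Complex.norm_real, h5]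
    have e0 : ‖((∑ l ∈ T, w l - Real.log y : ℝ) : ℂ)‖ ≤ C₀ := by
      rw [Complex.norm_real]
      exact h4
    have e1 : ‖∑ l ∈ T, α (l : ZMod N) * (w l : ℂ)‖ ≤ C₁ := hC₁ y
    have e2 : ‖ε * ∑ l ∈ T, β (l : ZMod N) * (w l : ℂ)‖ ≤ C₂ := by
      rw [norm_mul, hεn, one_mul]
      exact hC₂ y
    have e3 : ‖ε * ∑ l ∈ T, (α * β) (l : ZMod N) * (w l : ℂ)‖ ≤ C₃ := by
      rw [norm_mul, hεn, one_mul]
      exact hC₃ y
    refine (norm_add_le _ _).trans (add_le_add ?_ h3)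
    refine (norm_add_le _ _).trans (add_le_add ?_ e3)
    refine (norm_sub_le _ _).trans (add_le_add ?_ e2)
    exact (norm_sub_le _ _).trans (add_le_add e0 e1)
  have h7 : ∑ l ∈ (Icc 1 y).filter (fun l => l ∈ S), Real.log l / l - Real.log y / 4 =
      (4 * ∑ l ∈ (Icc 1 y).filter (fun l => l ∈ S), w l - Real.log y) / 4 := by
    rw [hw]
    ring
  rw [h7, abs_div, abs_of_pos (by norm_num : (0 : ℝ) < 4)]
  gcongr

open scoped Classical in
theorem nmertp_two : Mert (QQ 2) := by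
  obtain ⟨α, hα⟩ := lift_char (d := 4) (N := 8) (by norm_num) ZMod.χ₄
  obtain ⟨β, hβ⟩ := lift_char (d := 8) (N := 8) dvd_rfl ZMod.χ₈
  have c3 : Nat.Coprime 3 8 := by norm_num
  have c5 : Nat.Coprime 5 8 := by norm_num
  have a3 : α ((3 : ℕ) : ZMod 8) = -1 := by
    rw [hα 3 c3, show ZMod.χ₄ ((3 : ℕ) : ZMod 4) = -1 from by decide]
    norm_num
  have a5 : α ((5 : ℕ) : ZMod 8) = 1 := by
    rw [hα 5 c5, show ZMod.χ₄ ((5 : ℕ) : ZMod 4) = 1 from by decide]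
    norm_num
  have b5 : β ((5 : ℕ) : ZMod 8) = -1 := by
    rw [hβ 5 c5, show ZMod.χ₈ ((5 : ℕ) : ZMod 8) = -1 from by decide]
    norm_num
  refine mert_of α β 1 (by norm_num) (char_ne_one α c3 (by rw [a3]; norm_num))
    (char_ne_one β c5 (by rw [b5]; norm_num))
    (char_ne_one _ c5 (by rw [MulChar.mul_apply, a5, b5]; norm_num)) (QQ 2) ?_ ?_
  · rintro l ⟨hl, hl3, -⟩
    refine ⟨hl, ?_⟩
    rintro rfl
    norm_num at hl3
  · intro l hl hc
    have hl2 : l ≠ 2 := by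
      rintro rfl
      norm_num at hc
    have : Fact l.Prime := ⟨hl⟩
    have hodd : l % 2 = 1 := (hl.eq_two_or_odd).resolve_left hl2
    rw [hα l hc, hβ l hc, ZMod.χ₄_nat_mod_four, ZMod.χ₈_nat_mod_eight]
    have hsq := ZMod.exists_sq_eq_two_iff (p := l) hl2
    have hmem : l ∈ QQ 2 ↔ l % 8 = 3 := by
      constructor
      · rintro ⟨-, h3, h4⟩
        have h5 : ¬ IsSquare (2 : ZMod l) := by exact_mod_cast h4
        rw [hsq] at h5
        omega
      · intro h3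
        refine ⟨hl, by omega, ?_⟩
        have h5 : ¬ IsSquare (2 : ZMod l) := by
          rw [hsq]
          omega
        exact_mod_cast h5
    have h4 : l % 4 = l % 8 % 4 := by omega
    rw [if_congr hmem rfl rfl, h4]
    have h8 : l % 8 = 1 ∨ l % 8 = 3 ∨ l % 8 = 5 ∨ l % 8 = 7 := by omega
    have d1 : ZMod.χ₄ ((1 : ℕ) : ZMod 4) = 1 := by decide
    have d3 : ZMod.χ₄ ((3 : ℕ) : ZMod 4) = -1 := by decide
    have e1 : ZMod.χ₈ ((1 : ℕ) : ZMod 8) = 1 := by decide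
    have e3 : ZMod.χ₈ ((3 : ℕ) : ZMod 8) = -1 := by decide
    have e5 : ZMod.χ₈ ((5 : ℕ) : ZMod 8) = -1 := by decide
    have e7 : ZMod.χ₈ ((7 : ℕ) : ZMod 8) = 1 := by decide
    rcases h8 with h | h | h | h
    · rw [h, show 1 % 4 = 1 from rfl, d1, e1]
      norm_num
    · rw [h, show 3 % 4 = 3 from rfl, d3, e3]
      norm_num
    · rw [h, show 5 % 4 = 1 from rfl, d1, e5]
      norm_num
    · rw [h, show 7 % 4 = 3 from rfl, d3, e7]
      norm_num

theorem nmertp_odd (p : ℕ) (hp : p.Prime) (hp2 : p ≠ 2) : Mert (QQ p) := by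
  have : Fact p.Prime := ⟨hp⟩
  have hpodd : p % 2 = 1 := (hp.eq_two_or_odd).resolve_left hp2
  have hp3 : 3 ≤ p := by
    have := hp.two_le
    omega
  have hN : NeZero (4 * p) := ⟨by omega⟩
  obtain ⟨α, hα⟩ := lift_char (d := 4) (N := 4 * p) (dvd_mul_right 4 p) ZMod.χ₄
  obtain ⟨β, hβ⟩ := lift_char (d := p) (N := 4 * p) (dvd_mul_left p 4) (quadraticChar (ZMod p))
  have hcop : Nat.Coprime 4 p := by
    rw [show (4 : ℕ) = 2 ^ 2 from rfl]
    exact Nat.Coprime.pow_left 2 ((Nat.coprime_primes Nat.prime_two hp).2 (Ne.symm hp2))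
  -- two test elements
  obtain ⟨n, hn4, hnp⟩ := Nat.chineseRemainder hcop 3 1
  have hn4' : n % 4 = 3 := by
    have := hn4
    rw [Nat.ModEq] at this
    omega
  have hnc : n.Coprime (4 * p) := by
    rw [Nat.coprime_mul_iff_right]
    constructor
    · rw [show (4 : ℕ) = 2 ^ 2 from rfl]
      refine Nat.Coprime.pow_right 2 ?_
      rw [Nat.coprime_two_right]
      exact Nat.odd_iff.2 (by omega)
    · have h1 : Nat.gcd n p = Nat.gcd 1 p := hnp.gcd_eq
      rw [Nat.coprime_iff_gcd_eq_one, h1, Nat.gcd_one_left]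
  have an : α (n : ZMod (4 * p)) = -1 := by
    rw [hα n hnc, ZMod.χ₄_nat_three_mod_four hn4']
    norm_num
  have bn : β (n : ZMod (4 * p)) = 1 := by
    have h1 : (n : ZMod p) = ((1 : ℕ) : ZMod p) := (ZMod.natCast_eq_natCast_iff n 1 p).2 hnp
    rw [hβ n hnc, h1, Nat.cast_one, map_one]
    norm_num
  obtain ⟨a, ha⟩ := FiniteField.exists_nonsquare (F := ZMod p) (by
    rw [ZMod.ringChar_zmod_n]
    exact hp2)
  have ha0 : a ≠ 0 := by
    rintro rfl
    exact ha ⟨0, by simp⟩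
  obtain ⟨n', hn4a, hnpa⟩ := Nat.chineseRemainder hcop 1 a.val
  have hn4a' : n' % 4 = 1 := by
    have := hn4a
    rw [Nat.ModEq] at this
    omega
  have hcast : (n' : ZMod p) = a := by
    rw [(ZMod.natCast_eq_natCast_iff n' a.val p).2 hnpa, ZMod.natCast_zmod_val]
  have hnc' : n'.Coprime (4 * p) := by
    rw [Nat.coprime_mul_iff_right]
    constructor
    · rw [show (4 : ℕ) = 2 ^ 2 from rfl]
      refine Nat.Coprime.pow_right 2 ?_
      rw [Nat.coprime_two_right]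
      exact Nat.odd_iff.2 (by omega)
    · rw [← ZMod.isUnit_iff_coprime, hcast]
      exact isUnit_iff_ne_zero.2 ha0
  have bn' : β (n' : ZMod (4 * p)) = -1 := by
    rw [hβ n' hnc', hcast, quadraticChar_neg_one_iff_not_isSquare.2 ha]
    norm_num
  have hα1 : α ≠ 1 := char_ne_one α hnc (by rw [an]; norm_num)
  have hβ1 : β ≠ 1 := char_ne_one β hnc' (by rw [bn']; norm_num)
  have hαβ1 : α * β ≠ 1 := char_ne_one _ hnc (by rw [MulChar.mul_apply, an, bn]; norm_num)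
  have hS : ∀ l ∈ QQ p, l.Prime ∧ l ≠ 2 := by
    rintro l ⟨hl, hl3, -⟩
    refine ⟨hl, ?_⟩
    rintro rfl
    norm_num at hl3
  -- values at primes
  have key : ∀ l : ℕ, l.Prime → l.Coprime (4 * p) → l ≠ p ∧ l ≠ 2 ∧
      (quadraticChar (ZMod p) (l : ZMod p) = 1 ↔ IsSquare (l : ZMod p)) ∧
      (quadraticChar (ZMod p) (l : ZMod p) = -1 ↔ ¬ IsSquare (l : ZMod p)) := by
    intro l hl hc
    rw [Nat.coprime_mul_iff_right] at hc
    have h1 : l ≠ p := by
      rintro rfl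
      have := hc.2
      rw [Nat.coprime_self] at this
      exact hl.one_lt.ne' this
    have h2 : l ≠ 2 := by
      rintro rfl
      have := hc.1
      norm_num at this
    have h3 : (l : ZMod p) ≠ 0 := by
      rw [Ne, ZMod.natCast_eq_zero_iff, Nat.prime_dvd_prime_iff_eq hp hl]
      exact Ne.symm h1
    exact ⟨h1, h2, quadraticChar_one_iff_isSquare h3, quadraticChar_neg_one_iff_not_isSquare⟩
  have hp4 : p % 4 = 1 ∨ p % 4 = 3 := by omega
  rcases hp4 with hp4 | hp4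
  · refine mert_of α β 1 (by norm_num) hα1 hβ1 hαβ1 (QQ p) hS ?_
    intro l hl hc
    obtain ⟨h1, h2, h3, h4⟩ := key l hl hc
    have : Fact l.Prime := ⟨hl⟩
    have hodd : l % 2 = 1 := (hl.eq_two_or_odd).resolve_left h2
    rw [hα l hc, hβ l hc]
    have hrec := ZMod.exists_sq_eq_prime_iff_of_mod_four_eq_one (p := p) (q := l) hp4 h2
    have hl4 : l % 4 = 1 ∨ l % 4 = 3 := by omega
    rcases hl4 with hl4 | hl4
    · have hmem : l ∉ QQ p := by
        rintro ⟨-, h5, -⟩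
        omega
      rw [if_neg hmem, ZMod.χ₄_nat_one_mod_four hl4]
      norm_num
    · rw [ZMod.χ₄_nat_three_mod_four hl4]
      by_cases hsq : IsSquare (l : ZMod p)
      · have hmem : l ∉ QQ p := by
          rintro ⟨-, -, h5⟩
          exact h5 (hrec.1 hsq)
        rw [if_neg hmem, h3.2 hsq]
        norm_num
      · have hmem : l ∈ QQ p := ⟨hl, hl4, fun h5 => hsq (hrec.2 h5)⟩
        rw [if_pos hmem, h4.2 hsq]
        norm_num
  · refine mert_of α β (-1) (by norm_num) hα1 hβ1 hαβ1 (QQ p) hS ?_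
    intro l hl hc
    obtain ⟨h1, h2, h3, h4⟩ := key l hl hc
    have : Fact l.Prime := ⟨hl⟩
    have hodd : l % 2 = 1 := (hl.eq_two_or_odd).resolve_left h2
    rw [hα l hc, hβ l hc]
    have hl4 : l % 4 = 1 ∨ l % 4 = 3 := by omega
    rcases hl4 with hl4 | hl4
    · have hmem : l ∉ QQ p := by
        rintro ⟨-, h5, -⟩
        omega
      rw [if_neg hmem, ZMod.χ₄_nat_one_mod_four hl4]
      norm_num
    · have hrec := ZMod.exists_sq_eq_prime_iff_of_mod_four_eq_three (p := p) (q := l) hp4 hl4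
        (Ne.symm h1)
      rw [ZMod.χ₄_nat_three_mod_four hl4]
      by_cases hsq : IsSquare (l : ZMod p)
      · have hmem : l ∈ QQ p := ⟨hl, hl4, hrec.1 hsq⟩
        rw [if_pos hmem, h3.2 hsq]
        norm_num
      · have hmem : l ∉ QQ p := by
          rintro ⟨-, -, h5⟩
          exact hsq (hrec.2 h5)
        rw [if_neg hmem, h4.2 hsq]
        norm_num

theorem nmertp : NmertpStmt := by
  intro p hp
  rcases eq_or_ne p 2 with rfl | h
  · exact nmertp_two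
  · exact nmertp_odd p hp h

end Pool.Agent.Lib.MP_ba0fa5_ag.H92
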